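import Mathlib

/-!
# Short multiplication chains when the generated subgroups permute
-/

namespace Pool.Agent.R5.MC

variable {G : Type*} [Group G]

/-- A multiplication chain from `X`, the last product written first. -/
inductive Chain (X : Set G) : List G → Prop
  | nil : Chain X []
  | cons {l : List G} {a b : G} (h : Chain X l) (ha : a ∈ X ∨ a ∈ l) (hb : b ∈ X ∨ b ∈ l) :
      Chain X (a * b :: l)

/-- `g` is obtained from `X` with (at most) `m` multiplications. -/
def Obt (X : Set G) (m : ℕ) (g : G) : Prop :=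
  ∃ l : List G, Chain X l ∧ l.length = m ∧ (g ∈ X ∨ g ∈ l)

/-- `PermReach X K`: the subgroup `K` is the last term of a sequence of subgroups that begins with
the trivial one and in which each further term is a product `H⟨x⟩` of the previous term `H` and
the cyclic subgroup generated by an element `x` of `X`. -/
inductive PermReach (X : Set G) : Subgroup G → Prop
  | bot : PermReach X ⊥
  | step {H K : Subgroup G} {x : G} (h : PermReach X H) (hx : x ∈ X) (hHK : H ≤ K) (hxK : x ∈ K)
      (hK : ∀ k ∈ K, ∃ y ∈ H, ∃ z : ℤ, k = y * x ^ z) : PermReach X K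

lemma Chain.append {X : Set G} {l₁ l₂ : List G} (h₁ : Chain X l₁) (h₂ : Chain X l₂) :
    Chain X (l₂ ++ l₁) := by
  induction h₂ with
  | nil => exact h₁
  | @cons l a b _ ha hb ih =>
    refine Chain.cons ih ?_ ?_
    · rcases ha with h | h
      · exact Or.inl h
      · exact Or.inr (List.mem_append_left _ h)
    · rcases hb with h | h
      · exact Or.inl h
      · exact Or.inr (List.mem_append_left _ h)

lemma Obt.mul {X : Set G} {m₁ m₂ : ℕ} {a b : G} (ha : Obt X m₁ a) (hb : Obt X m₂ b) :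
    Obt X (m₁ + m₂ + 1) (a * b) := by
  obtain ⟨l₁, h₁, e₁, ha⟩ := ha
  obtain ⟨l₂, h₂, e₂, hb⟩ := hb
  refine ⟨a * b :: (l₂ ++ l₁), Chain.cons (h₁.append h₂) ?_ ?_, ?_, Or.inr List.mem_cons_self⟩
  · rcases ha with h | h
    · exact Or.inl h
    · exact Or.inr (List.mem_append_right _ h)
  · rcases hb with h | h
    · exact Or.inl h
    · exact Or.inr (List.mem_append_left _ h)
  · simp only [List.length_cons, List.length_append]
    omega

lemma Obt.sq {X : Set G} {m : ℕ} {a : G} (ha : Obt X m a) : Obt X (m + 1) (a * a) := by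
  obtain ⟨l, h, e, ha⟩ := ha
  exact ⟨a * a :: l, Chain.cons h ha ha, by simp [e], Or.inr List.mem_cons_self⟩

lemma Obt.mul_gen {X : Set G} {m : ℕ} {a x : G} (ha : Obt X m a) (hx : x ∈ X) :
    Obt X (m + 1) (a * x) := by
  obtain ⟨l, h, e, ha⟩ := ha
  exact ⟨a * x :: l, Chain.cons h ha (Or.inl hx), by simp [e], Or.inr List.mem_cons_self⟩

lemma obt_pow {X : Set G} {x : G} (hx : x ∈ X) (e : ℕ) (he : 1 ≤ e) :
    ∃ m, Obt X m (x ^ e) ∧ 2 ^ (m + 1) ≤ (e + 1) ^ 2 := by
  induction e using Nat.strong_induction_on with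
  | _ e ih =>
    by_cases h1 : e = 1
    · subst h1
      exact ⟨0, ⟨[], Chain.nil, rfl, Or.inl (by simpa using hx)⟩, by norm_num⟩
    obtain ⟨f, hf⟩ : ∃ f, e = 2 * f ∨ e = 2 * f + 1 := ⟨e / 2, by omega⟩
    obtain ⟨m, hm, hm2⟩ := ih f (by omega) (by omega)
    have hf1 : 1 ≤ f := by omega
    rcases hf with rfl | rfl
    · refine ⟨m + 1, ?_, ?_⟩
      · have := hm.sq
        rwa [← pow_add, ← two_mul] at this
      · rw [pow_succ]
        nlinarith
    · refine ⟨m + 2, ?_, ?_⟩
      · have := hm.sq.mul_gen hx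
        rwa [← pow_add, ← two_mul, ← pow_succ] at this
      · have e1 : (2 : ℕ) ^ (m + 2 + 1) = 4 * 2 ^ (m + 1) := by ring
        rw [e1]
        nlinarith

lemma obt_pow' {X : Set G} {x : G} (hx : x ∈ X) (e : ℕ) (he : 2 ≤ e) :
    ∃ m, Obt X m (x ^ e) ∧ 2 ^ m < e ^ 2 := by
  obtain ⟨f, hf⟩ : ∃ f, e = 2 * f ∨ e = 2 * f + 1 := ⟨e / 2, by omega⟩
  have hf1 : 1 ≤ f := by omega
  by_cases h2 : e = 2
  · subst h2
    refine ⟨1, ⟨[x * x], Chain.cons Chain.nil (Or.inl hx) (Or.inl hx), rfl, Or.inr ?_⟩,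
      by norm_num⟩
    rw [pow_two]
    exact List.mem_cons_self
  obtain ⟨m, hm, hm2⟩ := obt_pow hx f hf1
  rcases hf with rfl | rfl
  · refine ⟨m + 1, ?_, ?_⟩
    · have := hm.sq
      rwa [← pow_add, ← two_mul] at this
    · have : 2 ≤ f := by omega
      nlinarith
  · refine ⟨m + 2, ?_, ?_⟩
    · have := hm.sq.mul_gen hx
      rwa [← pow_add, ← two_mul, ← pow_succ] at this
    · have e1 : (2 : ℕ) ^ (m + 2) = 2 * 2 ^ (m + 1) := by ring
      rw [e1]
      nlinarith

/-- The inductive step: from `H` to `H⟨x⟩`. -/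
lemma step_aux [Finite G] {X : Set G} {H K : Subgroup G} {x : G} (hx : x ∈ X) (hHK : H ≤ K)
    (hxK : x ∈ K) (hK : ∀ k ∈ K, ∃ y ∈ H, ∃ z : ℤ, k = y * x ^ z)
    (ih : ∀ g ∈ H, g ≠ 1 → ∃ m, Obt X m g ∧ 2 ^ (m + 1) ≤ Nat.card H ^ 2) :
    ∀ g ∈ K, g ≠ 1 → ∃ m, Obt X m g ∧ 2 ^ (m + 1) ≤ Nat.card K ^ 2 := by
  classical
  have hex : ∃ n : ℕ, 0 < n ∧ x ^ n ∈ H :=
    ⟨orderOf x, orderOf_pos x, by rw [pow_orderOf_eq_one]; exact H.one_mem⟩
  set n := Nat.find hex with hn
  have hn0 : 0 < n := (Nat.find_spec hex).1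
  have hnH : x ^ n ∈ H := (Nat.find_spec hex).2
  have hmin : ∀ e, 0 < e → e < n → x ^ e ∉ H := fun e h1 h2 h3 => Nat.find_min hex h2 ⟨h1, h3⟩
  have hcard : n * Nat.card H ≤ Nat.card K := by
    have hinj : Function.Injective (fun p : Fin n × H =>
        (⟨p.2.1 * x ^ (p.1 : ℕ), K.mul_mem (hHK p.2.2) (K.pow_mem hxK _)⟩ : K)) := by
      rintro ⟨e, h⟩ ⟨e', h'⟩ heq
      have h1 : h.1 * x ^ (e : ℕ) = h'.1 * x ^ (e' : ℕ) := congrArg Subtype.val heq
      have key : ∀ (a b : ℕ) (u v : G), u ∈ H → v ∈ H → a ≤ b → b < n →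
          u * x ^ a = v * x ^ b → a = b := by
        intro a b u v hu hv hab hb h
        by_contra hne
        have h2 : x ^ (b - a) = v⁻¹ * u := by
          have h3 : x ^ b = x ^ (b - a) * x ^ a := by rw [← pow_add]; congr 1; omega
          rw [h3, ← mul_assoc] at h
          have h4 := mul_right_cancel h
          rw [h4, ← mul_assoc]
          simp
        exact hmin (b - a) (by omega) (by omega) (h2 ▸ H.mul_mem (H.inv_mem hv) hu)
      have hee : (e : ℕ) = e' := by
        rcases le_total (e : ℕ) e' with h | h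
        · exact key _ _ _ _ (SetLike.coe_mem _) (SetLike.coe_mem _) h e'.2 h1
        · exact (key _ _ _ _ (SetLike.coe_mem _) (SetLike.coe_mem _) h e.2 h1.symm).symm
      have hee' : e = e' := Fin.ext hee
      subst hee'
      have : h = h' := Subtype.ext (mul_right_cancel h1)
      rw [this]
    have := Nat.card_le_card_of_injective _ hinj
    rwa [Nat.card_prod, Nat.card_eq_fintype_card (α := Fin n), Fintype.card_fin] at this
  have hH1 : 1 ≤ Nat.card H := Nat.card_pos
  intro g hg hg1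
  obtain ⟨y, hy, z, hz⟩ := hK g hg
  -- reduce the exponent modulo `n`
  obtain ⟨u, e, hu, he, hge⟩ : ∃ (u : G) (e : ℕ), u ∈ H ∧ e < n ∧ g = u * x ^ e := by
    have hnz : (n : ℤ) ≠ 0 := by exact_mod_cast hn0.ne'
    refine ⟨y * (x ^ n) ^ (z / n), (z % n).toNat, H.mul_mem hy (H.zpow_mem hnH _), ?_, ?_⟩
    · have h1 := Int.emod_nonneg z hnz
      have h2 := Int.emod_lt_of_pos z (by exact_mod_cast hn0 : (0 : ℤ) < n)
      omega
    · have h1 := Int.emod_nonneg z hnz
      rw [hz, mul_assoc, ← zpow_natCast x n, ← zpow_mul, ← zpow_natCast x (z % n).toNat,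
        ← zpow_add, Int.toNat_of_nonneg h1, Int.mul_ediv_add_emod]
  have hKn : (Nat.card H) ^ 2 * n ^ 2 ≤ Nat.card K ^ 2 := by
    have := Nat.pow_le_pow_left hcard 2
    calc (Nat.card H) ^ 2 * n ^ 2 = (n * Nat.card H) ^ 2 := by ring
      _ ≤ _ := this
  by_cases he0 : e = 0
  · subst he0
    have hgu : g = u := by simpa using hge
    subst hgu
    obtain ⟨m, hm, hm2⟩ := ih g hu hg1
    refine ⟨m, hm, hm2.trans ?_⟩
    have : 1 ≤ n ^ 2 := Nat.one_le_pow _ _ hn0
    nlinarith
  obtain ⟨m, hm, hm2⟩ := obt_pow hx e (by omega)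
  have hen : (e + 1) ^ 2 ≤ n ^ 2 := Nat.pow_le_pow_left (by omega) 2
  by_cases hu1 : u = 1
  · subst hu1
    rw [one_mul] at hge
    rw [hge]
    refine ⟨m, hm, hm2.trans (hen.trans ?_)⟩
    have : 1 ≤ (Nat.card H) ^ 2 := Nat.one_le_pow _ _ hH1
    nlinarith
  · obtain ⟨m', hm', hm2'⟩ := ih u hu hu1
    rw [hge]
    refine ⟨m' + m + 1, hm'.mul hm, ?_⟩
    calc 2 ^ (m' + m + 1 + 1) = 2 ^ (m' + 1) * 2 ^ (m + 1) := by ring
      _ ≤ (Nat.card H) ^ 2 * n ^ 2 := Nat.mul_le_mul hm2' (hm2.trans hen)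
      _ ≤ _ := hKn

lemma PermReach.bound [Finite G] {X : Set G} {K : Subgroup G} (h : PermReach X K) :
    ∀ g ∈ K, g ≠ 1 → ∃ m, Obt X m g ∧ 2 ^ (m + 1) ≤ Nat.card K ^ 2 := by
  induction h with
  | bot =>
    intro g hg hg1
    exact absurd (Subgroup.mem_bot.1 hg) hg1
  | step _ hx hHK hxK hK ih => exact step_aux hx hHK hxK hK ih

lemma PermReach.exists_ne_one {X : Set G} {K : Subgroup G} (h : PermReach X K)
    (hX : ∀ x ∈ X, x = 1) : K = ⊥ := by
  induction h with
  | bot => rfl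
  | @step H K x _ hx hHK hxK hK ih =>
    rw [eq_bot_iff]
    intro k hk
    obtain ⟨y, hy, z, hz⟩ := hK k hk
    rw [ih] at hy
    rw [Subgroup.mem_bot] at hy ⊢
    rw [hz, hy, hX x hx]
    simp

lemma bound_top [Finite G] [Nontrivial G] {X : Set G} (h : PermReach X (⊤ : Subgroup G)) (g : G) :
    ∃ m, Obt X m g ∧ 2 ^ m < Nat.card G ^ 2 := by
  by_cases hg : g = 1
  · obtain ⟨x, hx, hx1⟩ : ∃ x ∈ X, x ≠ 1 := by
      by_contra hcon
      push Not at hcon
      have := h.exists_ne_one hcon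
      exact top_ne_bot this
    have hord : 2 ≤ orderOf x := by
      have h1 := orderOf_pos x
      have h2 : orderOf x ≠ 1 := fun e => hx1 (orderOf_eq_one_iff.1 e)
      omega
    obtain ⟨m, hm, hm2⟩ := obt_pow' hx (orderOf x) hord
    rw [pow_orderOf_eq_one] at hm
    refine ⟨m, hg ▸ hm, hm2.trans_le (Nat.pow_le_pow_left ?_ 2)⟩
    exact Nat.le_of_dvd Nat.card_pos (orderOf_dvd_natCard x)
  · obtain ⟨m, hm, hm2⟩ := h.bound g (Subgroup.mem_top g) hg
    refine ⟨m, hm, ?_⟩
    rw [Subgroup.card_top] at hm2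
    have : 2 ^ m < 2 ^ (m + 1) := Nat.pow_lt_pow_right (by norm_num) (by omega)
    omega

/-- Turning a list into an indexed chain. -/
lemma Chain.indexed {X : Set G} {l : List G} (h : Chain X l) :
    ∃ y : Fin l.length → G,
      (∀ i, ∃ a b : G, (a ∈ X ∨ ∃ j, j < i ∧ y j = a) ∧ (b ∈ X ∨ ∃ j, j < i ∧ y j = b) ∧
        y i = a * b) ∧ ∀ g, g ∈ l → ∃ i, y i = g := by
  induction h with
  | nil => exact ⟨fun i => i.elim0, fun i => i.elim0, fun g hg => by simp at hg⟩
  | @cons l a b _ ha hb ih =>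
    obtain ⟨y, hy, hcov⟩ := ih
    refine ⟨fun i => Fin.snoc (α := fun _ => G) y (a * b) i, ?_, ?_⟩
    · intro i
      refine Fin.lastCases ?_ (fun i => ?_) i
      · refine ⟨a, b, ?_, ?_, by simp⟩
        · rcases ha with h | h
          · exact Or.inl h
          · obtain ⟨j, hj⟩ := hcov a h
            exact Or.inr ⟨j.castSucc, Fin.castSucc_lt_last j, by simpa using hj⟩
        · rcases hb with h | h
          · exact Or.inl h
          · obtain ⟨j, hj⟩ := hcov b h
            exact Or.inr ⟨j.castSucc, Fin.castSucc_lt_last j, by simpa using hj⟩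
      · obtain ⟨c, d, hc, hd, hcd⟩ := hy i
        refine ⟨c, d, ?_, ?_, by simpa using hcd⟩
        · rcases hc with h | ⟨j, hj, hjc⟩
          · exact Or.inl h
          · exact Or.inr ⟨j.castSucc, by simpa using hj, by simpa using hjc⟩
        · rcases hd with h | ⟨j, hj, hjd⟩
          · exact Or.inl h
          · exact Or.inr ⟨j.castSucc, by simpa using hj, by simpa using hjd⟩
    · intro g hg
      rcases List.mem_cons.1 hg with rfl | hg
      · exact ⟨Fin.last _, by simp⟩
      · obtain ⟨i, hi⟩ := hcov g hg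
        exact ⟨i.castSucc, by simpa using hi⟩

/-- `g` can be obtained from `X` with fewer than `2 log₂ |G|` multiplications (each product is of
two elements that are in `X` or earlier in the chain). -/
def ShortChain (G : Type) [Group G] [Fintype G] (X : Set G) (g : G) : Prop :=
  ∃ k : ℕ, (k : ℝ) < 2 * Real.logb 2 (Fintype.card G) ∧
    ∃ y : Fin k → G,
      (∀ i : Fin k, ∃ a b : G,
          (a ∈ X ∨ ∃ j : Fin k, j < i ∧ y j = a) ∧
          (b ∈ X ∨ ∃ j : Fin k, j < i ∧ y j = b) ∧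
          y i = a * b) ∧
      (g ∈ X ∨ ∃ i : Fin k, y i = g)

lemma shortChain_of_permReach (G : Type) [Group G] [Fintype G] [Nontrivial G] {X : Set G}
    (h : PermReach X (⊤ : Subgroup G)) (g : G) : ShortChain G X g := by
  obtain ⟨m, ⟨l, hl, hlm, hg⟩, hm⟩ := bound_top h g
  obtain ⟨y, hy, hcov⟩ := hl.indexed
  refine ⟨l.length, ?_, y, hy, ?_⟩
  · rw [hlm]
    have hc : (0 : ℝ) < Fintype.card G := by exact_mod_cast Fintype.card_pos
    have h1 : (m : ℝ) = Real.logb 2 ((2 : ℝ) ^ m) := by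
      rw [Real.logb_pow, Real.logb_self_eq_one (by norm_num), mul_one]
    have h2 : 2 * Real.logb 2 (Fintype.card G) = Real.logb 2 ((Fintype.card G : ℝ) ^ 2) := by
      rw [Real.logb_pow]
      norm_num
    rw [h1, h2]
    apply Real.logb_lt_logb (by norm_num) (by positivity)
    rw [Nat.card_eq_fintype_card] at hm
    exact_mod_cast hm
  · rcases hg with h | h
    · exact Or.inl h
    · exact Or.inr (hcov g h)

/-- If the subgroups of `G` permute, every generating set reaches `G`. -/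
lemma permReach_top [Finite G] {X : Set G} (hX : Subgroup.closure X = ⊤)
    (hperm : ∀ (H : Subgroup G) (x : G), ∀ h ∈ H, ∃ h' ∈ H, ∃ z : ℤ, x * h = h' * x ^ z) :
    PermReach X (⊤ : Subgroup G) := by
  classical
  have hfin : X.Finite := Set.toFinite X
  have key : ∀ s : Finset G, (s : Set G) ⊆ X → PermReach X (Subgroup.closure (s : Set G)) := by
    intro s
    induction s using Finset.induction_on with
    | empty =>
      intro _
      simpa using PermReach.bot
    | @insert x s _ ih =>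
      intro hs
      have hs' : (s : Set G) ⊆ X := fun y hy => hs (by simp [Finset.mem_coe.1 hy])
      have hx : x ∈ X := hs (by simp)
      set H := Subgroup.closure (s : Set G) with hH
      have hle : H ≤ Subgroup.closure ((insert x s : Finset G) : Set G) :=
        Subgroup.closure_mono (by simp)
      have hxm : x ∈ Subgroup.closure ((insert x s : Finset G) : Set G) :=
        Subgroup.subset_closure (by simp)
      refine PermReach.step (ih hs') hx hle hxm ?_
      have hzpow : ∀ (n : ℤ) (h : G), h ∈ H → ∃ h' ∈ H, ∃ z : ℤ, x ^ n * h = h' * x ^ z := by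
        intro n h hh
        obtain ⟨h', hh', z, hz⟩ := hperm H (x ^ n) h hh
        exact ⟨h', hh', n * z, by rw [hz, ← zpow_mul]⟩
      intro k hk
      refine Subgroup.closure_induction (p := fun k _ => ∃ y ∈ H, ∃ z : ℤ, k = y * x ^ z)
        ?_ ?_ ?_ ?_ hk
      · intro y hy
        rw [Finset.coe_insert] at hy
        rcases hy with rfl | hy
        · exact ⟨1, H.one_mem, 1, by simp⟩
        · exact ⟨y, Subgroup.subset_closure hy, 0, by simp⟩
      · exact ⟨1, H.one_mem, 0, by simp⟩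
      · rintro u v - - ⟨y, hy, z, rfl⟩ ⟨y', hy', z', rfl⟩
        obtain ⟨h', hh', w, hw⟩ := hzpow z y' hy'
        refine ⟨y * h', H.mul_mem hy hh', w + z', ?_⟩
        rw [zpow_add]
        calc y * x ^ z * (y' * x ^ z') = y * (x ^ z * y') * x ^ z' := by group
          _ = y * (h' * x ^ w) * x ^ z' := by rw [hw]
          _ = _ := by group
      · rintro u - ⟨y, hy, z, rfl⟩
        obtain ⟨h', hh', w, hw⟩ := hzpow (-z) y⁻¹ (H.inv_mem hy)
        refine ⟨h', hh', w, ?_⟩
        rw [← hw]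
        group
  have h := key hfin.toFinset (by simp)
  rwa [Set.Finite.coe_toFinset, hX] at h

end Pool.Agent.R5.MC
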